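import Pool.Agent.Lib_helper58.KT.Frob
import Mathlib.RingTheory.ZMod.UnitsCyclic

/-!
# The cyclotomic character of an element that moves a root of unity of small order
-/

set_option autoImplicit false

namespace Pool.Agent.OF

open Pool.Agent.TT

/-- The powers of `1 + p ^ m a`, `p ∤ a`, are all the elements `1 + p ^ m b` modulo `p ^ (n + m)`. -/
theorem of_cyc {p : ℕ} (hp : p.Prime) {m : ℕ} (hm0 : m ≠ 0) (hpm : m + 2 ≤ p * m) {a : ℤ}
    (ha : ¬ (p : ℤ) ∣ a) (n : ℕ) (b : ℤ) :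
    ∃ j : ℕ, ((1 + p ^ m * a : ℤ) : ZMod (p ^ (n + m))) ^ j =
      ((1 + p ^ m * b : ℤ) : ZMod (p ^ (n + m))) := by
  classical
  have hpn : 0 < p ^ n := pow_pos hp.pos n
  have hcast : ∀ c : ℤ, ((1 + p ^ m * c : ℤ) : ZMod (p ^ (n + m))) =
      1 + p ^ m * (c : ZMod (p ^ (n + m))) := by
    intro c
    push_cast
    rfl
  have hord := ZMod.orderOf_one_add_mul_prime_pow hp m hm0 hpm a ha n
  set Z : ZMod (p ^ (n + m)) := 1 + p ^ m * a with hZ
  let P : Finset (ZMod (p ^ (n + m))) := (Finset.range (p ^ n)).image fun j => Z ^ j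
  let Q : Finset (ZMod (p ^ (n + m))) := (Finset.range (p ^ n)).image fun c : ℕ =>
    1 + (p : ZMod (p ^ (n + m))) ^ m * (c : ZMod (p ^ (n + m)))
  have hP : P.card = p ^ n := by
    rw [Finset.card_image_of_injOn, Finset.card_range]
    intro i hi j hj hij
    have h1 := pow_injOn_Iio_orderOf (x := Z)
    rw [hord] at h1
    exact h1 (Finset.mem_range.mp hi) (Finset.mem_range.mp hj) hij
  have hQ : Q.card ≤ p ^ n := by
    refine Finset.card_image_le.trans ?_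
    rw [Finset.card_range]
  have hmemQ : ∀ c : ℤ, 1 + (p : ZMod (p ^ (n + m))) ^ m * (c : ZMod (p ^ (n + m))) ∈ Q := by
    intro c
    have hpz : (0 : ℤ) < ((p ^ n : ℕ) : ℤ) := by exact_mod_cast hpn
    have h0 : 0 ≤ c % ((p ^ n : ℕ) : ℤ) := Int.emod_nonneg _ hpz.ne'
    obtain ⟨c', hc'⟩ := Int.eq_ofNat_of_zero_le h0
    have hlt : c' < p ^ n := by
      have := Int.emod_lt_of_pos c hpz
      rw [hc'] at this
      exact_mod_cast this
    rw [Finset.mem_image]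
    refine ⟨c', Finset.mem_range.mpr hlt, ?_⟩
    have h1 : c = ((p ^ n : ℕ) : ℤ) * (c / ((p ^ n : ℕ) : ℤ)) + (c' : ℤ) := by
      have := Int.mul_ediv_add_emod c ((p ^ n : ℕ) : ℤ)
      rw [hc'] at this
      exact this.symm
    have h2 : ((p : ZMod (p ^ (n + m))) ^ m) * (p : ZMod (p ^ (n + m))) ^ n = 0 := by
      rw [← pow_add, add_comm m n, ← Nat.cast_pow, ZMod.natCast_self]
    congr 1
    rw [h1]
    push_cast
    rw [mul_add, ← mul_assoc, h2, zero_mul, zero_add]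
  have hPQ : P ⊆ Q := by
    intro x hx
    rw [Finset.mem_image] at hx
    obtain ⟨j, -, rfl⟩ := hx
    have h1 : ∃ c : ℤ, Z ^ j = 1 + (p : ZMod (p ^ (n + m))) ^ m * (c : ZMod (p ^ (n + m))) := by
      induction j with
      | zero => exact ⟨0, by rw [pow_zero, Int.cast_zero, mul_zero, add_zero]⟩
      | succ j ih =>
        obtain ⟨c, hc⟩ := ih
        refine ⟨c + a + p ^ m * (c * a), ?_⟩
        rw [pow_succ, hc, hZ]
        push_cast
        ring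
    obtain ⟨c, hc⟩ := h1
    rw [hc]
    exact hmemQ c
  have hEq : P = Q := Finset.eq_of_subset_of_card_le hPQ (by rw [hP]; exact hQ)
  have h1 := hmemQ b
  rw [← hEq, Finset.mem_image] at h1
  obtain ⟨j, -, hj⟩ := h1
  refine ⟨j, ?_⟩
  rw [hcast, hcast]
  exact hj

/-- `(1 + p ^ κ a) ^ (M p ^ t) = 1 + p ^ (κ + t) a'` with `p ∤ a'`. -/
theorem of_pow {p : ℕ} (hp : p.Prime) {κ : ℕ} (hκ : κ ≠ 0) (hpκ : κ + 2 ≤ p * κ) {a : ℤ}
    (ha : ¬ (p : ℤ) ∣ a) {M : ℕ} (hM : ¬ p ∣ M) (t : ℕ) :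
    ∃ a' : ℤ, ¬ (p : ℤ) ∣ a' ∧ (1 + (p : ℤ) ^ κ * a) ^ (M * p ^ t) = 1 + p ^ (κ + t) * a' := by
  have h1 : ∀ M : ℕ, ∃ c : ℤ, (1 + (p : ℤ) ^ κ * a) ^ M = 1 + p ^ κ * (M * a + p * c) := by
    intro M
    induction M with
    | zero => exact ⟨0, by simp⟩
    | succ M ih =>
      obtain ⟨c, hc⟩ := ih
      refine ⟨c + p ^ (κ - 1) * (a * (M * a + p * c)), ?_⟩
      have h2 : (p : ℤ) ^ κ = p * p ^ (κ - 1) := by
        rw [← pow_succ']
        congr 1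
        omega
      rw [pow_succ, hc]
      push_cast
      have h3 : (p : ℤ) ^ κ * (p ^ κ) = p ^ κ * (p * p ^ (κ - 1)) := by rw [← h2]
      linear_combination (a * (M * a + p * c)) * h3
  obtain ⟨c, hc⟩ := h1 M
  have ha1 : ¬ (p : ℤ) ∣ M * a + p * c := by
    intro h
    have h2 : (p : ℤ) ∣ M * a := (Int.dvd_add_left (dvd_mul_right _ _)).mp h
    rcases (Nat.prime_iff_prime_int.mp hp).dvd_or_dvd h2 with h3 | h3
    · exact hM (by exact_mod_cast h3)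
    · exact ha h3
  obtain ⟨y, hy⟩ := ZMod.exists_one_add_mul_pow_prime_pow_eq (R := ℤ) (u := (p : ℤ) ^ κ) (v := (p : ℤ))
    hp (dvd_pow_self _ hκ) (by
      rw [← pow_succ', ← pow_succ, ← pow_mul, mul_comm κ p]
      exact pow_dvd_pow _ hpκ) (M * a + p * c) t
  refine ⟨M * a + p * c + p * y, ?_, ?_⟩
  · intro h
    exact ha1 ((Int.dvd_add_left (dvd_mul_right _ _)).mp h)
  · rw [pow_mul, hc, hy, pow_add]
    ring

/-- **The cyclotomic lemma.** `τ` moves a root of unity of order `p ^ (κ + 1)`, where all elements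
fix the roots of unity of order `p ^ κ`, and `g` fixes the roots of unity of order `p ^ (κ + t)`.
Then, on the roots of unity of order `p ^ N`, `g` is a power of `τ ^ (M p ^ t)`, if `p ∤ M`. -/
theorem of_gal {L : Type} [Field L] [Algebra L Qbar] {p : ℕ} (hp : p.Prime) {κ t M : ℕ}
    (hκ : κ ≠ 0) (hpκ : κ + 2 ≤ p * κ) (hM : ¬ p ∣ M) {τ g : Qbar ≃ₐ[L] Qbar}
    (hfix : ∀ z : Qbar, z ^ p ^ κ = 1 → τ z = z) (hτ : ∃ z : Qbar, z ^ p ^ (κ + 1) = 1 ∧ τ z ≠ z)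
    (hg : ∀ z : Qbar, z ^ p ^ (κ + t) = 1 → g z = z) (N : ℕ) :
    ∃ j : ℕ, ∀ z : Qbar, z ^ p ^ N = 1 → ((τ ^ (M * p ^ t)) ^ j) z = g z := by
  have hN' : 0 < p ^ (N + 1 + (κ + t)) := pow_pos hp.pos _
  have : NeZero (p ^ (N + 1 + (κ + t))) := ⟨hN'.ne'⟩
  obtain ⟨z, hz⟩ := KT.exists_prim hN'
  have hact : ∀ σ : Qbar ≃ₐ[L] Qbar, ∃ x : ℕ, σ z = z ^ x := by
    intro σ
    obtain ⟨x, -, hx⟩ := hz.eq_pow_of_pow_eq_one (ξ := σ z) (by
      rw [← map_pow, hz.pow_eq_one, map_one])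
    exact ⟨x, hx.symm⟩
  obtain ⟨x, hx⟩ := hact τ
  obtain ⟨y, hy⟩ := hact g
  -- congruences
  have hcong : ∀ (σ : Qbar ≃ₐ[L] Qbar) (x s : ℕ), σ z = z ^ x → s ≤ N + 1 + (κ + t) →
      (∀ u : Qbar, u ^ p ^ s = 1 → σ u = u) → ∃ a : ℤ, (x : ℤ) = 1 + p ^ s * a := by
    intro σ x s hσ hs hfix
    have h1 := hfix (z ^ p ^ (N + 1 + (κ + t) - s)) (by
      rw [← pow_mul, ← pow_add, Nat.sub_add_cancel hs, hz.pow_eq_one])
    rw [map_pow, hσ, ← pow_mul] at h1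
    have hfin : IsOfFinOrder z := isOfFinOrder_iff_pow_eq_one.mpr ⟨_, hN', hz.pow_eq_one⟩
    rw [hfin.pow_eq_pow_iff_modEq, ← hz.eq_orderOf] at h1
    have h2 := (Nat.modEq_iff_dvd.mp h1.symm)
    push_cast at h2
    have h3 : (x : ℤ) * p ^ (N + 1 + (κ + t) - s) - p ^ (N + 1 + (κ + t) - s) =
        p ^ (N + 1 + (κ + t) - s) * (x - 1) := by ring
    have h4 : (p : ℤ) ^ (N + 1 + (κ + t)) = p ^ (N + 1 + (κ + t) - s) * p ^ s := by
      rw [← pow_add, Nat.sub_add_cancel hs]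
    rw [h3, h4] at h2
    have h5 : (p : ℤ) ^ s ∣ x - 1 := (mul_dvd_mul_iff_left (pow_ne_zero _ (by
      exact_mod_cast hp.ne_zero))).mp h2
    obtain ⟨a, ha⟩ := h5
    exact ⟨a, by rw [← ha]; ring⟩
  obtain ⟨a, ha⟩ := hcong τ x κ hx (by omega) hfix
  obtain ⟨b, hb⟩ := hcong g y (κ + t) hy (by omega) hg
  have hpa : ¬ (p : ℤ) ∣ a := by
    rintro ⟨c, rfl⟩
    obtain ⟨u, hu, hτu⟩ := hτ
    apply hτu
    obtain ⟨i, -, hi⟩ := hz.eq_pow_of_pow_eq_one (ξ := u) (by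
      have : N + 1 + (κ + t) = (κ + 1) + (N + t) := by omega
      rw [this, pow_add, pow_mul, hu, one_pow])
    rw [← hi] at hu ⊢
    rw [map_pow, hx, ← pow_mul]
    have hfin : IsOfFinOrder z := isOfFinOrder_iff_pow_eq_one.mpr ⟨_, hN', hz.pow_eq_one⟩
    rw [hfin.pow_eq_pow_iff_modEq, ← hz.eq_orderOf]
    rw [← pow_mul, hz.pow_eq_one_iff_dvd] at hu
    apply Nat.ModEq.symm
    rw [Nat.modEq_iff_dvd]
    push_cast
    rw [ha]
    have h1 : (1 + (p : ℤ) ^ κ * (p * c)) * i - i = c * (i * p ^ (κ + 1)) := by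
      rw [pow_succ]
      ring
    rw [h1]
    apply dvd_mul_of_dvd_right
    exact_mod_cast hu
  obtain ⟨a', ha', hpow⟩ := of_pow hp hκ hpκ hpa hM t
  have hm : κ + t + 2 ≤ p * (κ + t) := by
    have h1 : t ≤ p * t := Nat.le_mul_of_pos_left t hp.pos
    rw [mul_add]
    omega
  obtain ⟨j, hj⟩ := of_cyc hp (by omega : κ + t ≠ 0) hm ha' (N + 1) b
  refine ⟨j, ?_⟩
  -- the action of powers
  have hpowact : ∀ k : ℕ, (τ ^ k) z = z ^ x ^ k := by
    intro k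
    induction k with
    | zero =>
      rw [pow_zero, pow_zero, pow_one]
      rfl
    | succ k ih =>
      have h1 : (τ ^ (k + 1)) z = τ ((τ ^ k) z) := by
        rw [pow_succ']
        rfl
      rw [h1, ih, map_pow, hx, ← pow_mul, ← pow_succ']
  have hzz : ((τ ^ (M * p ^ t)) ^ j) z = g z := by
    rw [← pow_mul, hpowact, hy]
    have hfin : IsOfFinOrder z := isOfFinOrder_iff_pow_eq_one.mpr ⟨_, hN', hz.pow_eq_one⟩
    rw [hfin.pow_eq_pow_iff_modEq, ← hz.eq_orderOf, ← ZMod.natCast_eq_natCast_iff]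
    have h1 : ((x ^ (M * p ^ t * j) : ℕ) : ZMod (p ^ (N + 1 + (κ + t)))) =
        (((x : ℤ) ^ (M * p ^ t)) : ZMod (p ^ (N + 1 + (κ + t)))) ^ j := by
      push_cast
      rw [← pow_mul]
    have h2 : ((y : ℕ) : ZMod (p ^ (N + 1 + (κ + t)))) =
        ((y : ℤ) : ZMod (p ^ (N + 1 + (κ + t)))) := by push_cast; rfl
    have h3 : (((x : ℤ) ^ (M * p ^ t) : ℤ) : ZMod (p ^ (N + 1 + (κ + t)))) =
        ((1 + p ^ (κ + t) * a' : ℤ) : ZMod (p ^ (N + 1 + (κ + t)))) := by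
      rw [ha, hpow]
    rw [h1, h2, hb, ← hj, ← h3]
    push_cast
    rfl
  intro u hu
  obtain ⟨i, -, hi⟩ := hz.eq_pow_of_pow_eq_one (ξ := u) (by
    have : N + 1 + (κ + t) = N + (1 + (κ + t)) := by omega
    rw [this, pow_add, pow_mul, hu, one_pow])
  rw [← hi, map_pow, map_pow, hzz]

end Pool.Agent.OF
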