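import Pool.Agent.Lib_helper99.OL.DefsAll

/-!
# One Frobenius element at one level: the hypothesis
-/

set_option autoImplicit false

namespace Pool.Agent.OF

open NumberField Polynomial
open Pool.Agent.TT Pool.Agent.KT Pool.Agent.KP Pool.Agent.EFF

/-- The element `g` fixes the roots of unity of order `p ^ (κ + t)`, which is enough: some element
`τ` fixes the roots of unity of order `p ^ κ` but not those of order `p ^ (κ + 1)` (`κ ≥ 1`, and
`κ ≥ 2` if `p = 2`), the entries of the matrices `ρ σ` lie in a ring `A` such that `|a| = 1` or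
`|a| ^ (h * f) ≤ |p|` for all `a` in `A`, and `p ^ t ≥ d * h`. -/
def FixesEnough {L : Type} [Field L] [Algebra L Qbar] {p : ℕ} [Fact p.Prime] {d : ℕ} (f : ℕ)
    (ρ : (Qbar ≃ₐ[L] Qbar) →* Matrix (Fin d) (Fin d) ℂ_[p]) (g : Qbar ≃ₐ[L] Qbar) : Prop :=
  ∃ (A : Subring ℂ_[p]) (h κ t : ℕ), 0 < κ ∧ κ + 2 ≤ p * κ ∧ d * h ≤ p ^ t ∧
    (∃ τ : Qbar ≃ₐ[L] Qbar, (∀ z : Qbar, z ^ p ^ κ = 1 → τ z = z) ∧
      ∃ z : Qbar, z ^ p ^ (κ + 1) = 1 ∧ τ z ≠ z) ∧
    (∀ σ i j, ρ σ i j ∈ A) ∧ (∀ a ∈ A, ‖a‖ = 1 ∨ ‖a‖ ^ (h * f) ≤ ‖(p : ℂ_[p])‖) ∧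
    ∀ z : Qbar, z ^ p ^ (κ + t) = 1 → g z = z

/-- **One Frobenius element at one level.** There is a continuous representation `ρ` of the Galois
group of `L` over `ℂ_[p]` of dimension `d` with the traces `T(F)`, the sums of the family `S` for the
`p ^ k`-th root of unity `ω`, modulo `|F| - 1`, and there is an element `g` that fixes all roots of
unity of `p`-power order, or only those of one sufficiently large order (`FixesEnough`), such that
`ρ g` is far from having `e + 1` eigenvalues that are roots of unity of orders that divide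
`M * p ^ (k + b)` (`FarFromRoots`, for `D = d * φ(m)` and the exponent `φ(p ^ c)`). -/
def OneFrobenius {K L : Type} [Field K] [Field L] [Algebra K L] [Algebra L Qbar] {p : ℕ}
    [Fact p.Prime] (θ : Qbar →+* ℂ_[p]) (m c : ℕ) (ζ : 𝓞 K) (k b : ℕ) (ω : 𝓞 L) {s : ℕ}
    (S : Fin s → TowerStratum K) (d e : ℕ) : Prop :=
  ∃ (ρ : (Qbar ≃ₐ[L] Qbar) →* Matrix (Fin d) (Fin d) ℂ_[p]) (g : Qbar ≃ₐ[L] Qbar),
    Continuous ρ ∧ TracesOver θ (m * p ^ c) ζ (p ^ k) ω S ρ ∧
      (FixesRoots p g ∨ FixesEnough (p ^ c).totient ρ g) ∧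
      FarFromRoots (ρ g) (d * m.totient) (k + b) e (p ^ c).totient

end Pool.Agent.OF
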