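import Pool.Agent.Lib_helper58.KT.Defs

/-!
# Powers of integral matrices
-/

set_option autoImplicit false

namespace Pool.Agent.OF

open Matrix Polynomial

section bounds

variable {C : Type} [NormedField C] [IsUltrametricDist C] {d : ℕ}

/-- All entries of the matrix are bounded by `r`. -/
def EntLe (N : Matrix (Fin d) (Fin d) C) (r : ℝ) : Prop := ∀ i j, ‖N i j‖ ≤ r

theorem EntLe.mul {N N' : Matrix (Fin d) (Fin d) C} {x y : ℝ} (hx : 0 ≤ x) (hy : 0 ≤ y)
    (h : EntLe N x) (h' : EntLe N' y) : EntLe (N * N') (x * y) := by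
  intro i j
  rw [Matrix.mul_apply]
  apply IsUltrametricDist.norm_sum_le_of_forall_le_of_nonneg (mul_nonneg hx hy)
  intro k _
  rw [norm_mul]
  exact mul_le_mul (h i k) (h' k j) (norm_nonneg _) hx

omit [IsUltrametricDist C] in
theorem EntLe.one : EntLe (1 : Matrix (Fin d) (Fin d) C) 1 := by
  intro i j
  rw [Matrix.one_apply]
  split_ifs
  · rw [norm_one]
  · rw [norm_zero]
    exact zero_le_one

theorem EntLe.pow {N : Matrix (Fin d) (Fin d) C} {x : ℝ} (hx : 0 ≤ x) (h : EntLe N x) (n : ℕ) :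
    EntLe (N ^ n) (x ^ n) := by
  induction n with
  | zero =>
    rw [pow_zero, pow_zero]
    exact EntLe.one
  | succ n ih =>
    rw [pow_succ, pow_succ]
    exact ih.mul (pow_nonneg hx n) hx h

theorem EntLe.add {N N' : Matrix (Fin d) (Fin d) C} {x : ℝ}
    (h : EntLe N x) (h' : EntLe N' x) : EntLe (N + N') x := by
  intro i j
  rw [Matrix.add_apply]
  exact (IsUltrametricDist.norm_add_le_max _ _).trans (max_le (h i j) (h' i j))

omit [IsUltrametricDist C] in
theorem EntLe.neg {N : Matrix (Fin d) (Fin d) C} {x : ℝ}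
    (h : EntLe N x) : EntLe (-N) x := by
  intro i j
  rw [Matrix.neg_apply, norm_neg]
  exact h i j

omit [IsUltrametricDist C] in
theorem EntLe.mono {N : Matrix (Fin d) (Fin d) C} {x y : ℝ}
    (h : EntLe N x) (hxy : x ≤ y) : EntLe N y := fun i j => (h i j).trans hxy

end bounds

section ring

variable {C : Type} [NormedField C] {d : ℕ}

/-- The elements of norm `< 1` of a subring of the unit ball. -/
def ofIdeal (A : Subring C) (hA : ∀ a ∈ A, ‖a‖ ≤ 1) [IsUltrametricDist C] : Ideal A where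
  carrier := {a | ‖(a : C)‖ < 1}
  zero_mem' := by
    change ‖((0 : A) : C)‖ < 1
    rw [ZeroMemClass.coe_zero, norm_zero]
    exact one_pos
  add_mem' := by
    intro a b ha hb
    change ‖((a + b : A) : C)‖ < 1
    rw [AddMemClass.coe_add]
    exact lt_of_le_of_lt (IsUltrametricDist.norm_add_le_max _ _) (max_lt ha hb)
  smul_mem' := by
    intro c a ha
    change ‖((c * a : A) : C)‖ < 1
    rw [MulMemClass.coe_mul, norm_mul]
    exact lt_of_le_of_lt (mul_le_of_le_one_left (norm_nonneg _) (hA c c.2)) ha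

theorem ofIdeal_prime (A : Subring C) (hA : ∀ a ∈ A, ‖a‖ ≤ 1) [IsUltrametricDist C] :
    (ofIdeal A hA).IsPrime := by
  refine ⟨?_, ?_⟩
  · intro h
    have h1 : (1 : A) ∈ ofIdeal A hA := by
      rw [h]
      trivial
    have h2 : ‖((1 : A) : C)‖ < 1 := h1
    rw [OneMemClass.coe_one, norm_one] at h2
    exact lt_irrefl _ h2
  · intro a b hab
    have h1 : ‖((a * b : A) : C)‖ < 1 := hab
    rw [MulMemClass.coe_mul, norm_mul] at h1
    by_contra hne
    rw [not_or] at hne
    have h2 : 1 ≤ ‖(a : C)‖ := not_lt.mp hne.1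
    have h3 : 1 ≤ ‖(b : C)‖ := not_lt.mp hne.2
    have h4 : 1 ≤ ‖(a : C)‖ * ‖(b : C)‖ := one_le_mul_of_one_le_of_one_le h2 h3
    exact absurd h1 (not_lt.mpr h4)

/-- A matrix over a domain that is nilpotent has `N ^ d = 0`. -/
theorem of_nilp {k : Type} [CommRing k] [IsDomain k] {N : Matrix (Fin d) (Fin d) k}
    (hN : IsNilpotent N) : N ^ d = 0 := by
  have h1 := Matrix.isNilpotent_charpoly_sub_pow_of_isNilpotent hN
  have h2 : N.charpoly - X ^ Fintype.card (Fin d) = 0 := h1.eq_zero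
  rw [Fintype.card_fin, sub_eq_zero] at h2
  have h3 := Matrix.aeval_self_charpoly N
  rw [h2, map_pow, aeval_X] at h3
  exact h3

/-- **The matrix lemma.** -/
theorem of_mat [IsUltrametricDist C] {p : ℕ} (hp : p.Prime) {h t M a : ℕ} {r δ : ℝ}
    (hrp : ‖(p : C)‖ ≤ r) (hp1 : ‖(p : C)‖ < 1) (hδ0 : 0 ≤ δ) (hδ1 : δ ≤ 1) (hδ : δ ^ h ≤ r)
    (A : Subring C) (hA : ∀ a ∈ A, ‖a‖ = 1 ∨ ‖a‖ ≤ δ) (hdh : d * h ≤ p ^ t)
    (T : Matrix (Fin d) (Fin d) C) (hT : ∀ i j, T i j ∈ A)
    (hM : ∀ i j, ‖(T ^ (M * p ^ a) - 1) i j‖ < 1) :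
    EntLe (T ^ (M * p ^ t) - 1) r := by
  have hr0 : 0 ≤ r := (norm_nonneg _).trans hrp
  have hA1 : ∀ a ∈ A, ‖a‖ ≤ 1 := fun a ha => by
    rcases hA a ha with h1 | h1
    · exact h1.le
    · exact h1.trans hδ1
  let f : Matrix (Fin d) (Fin d) A →+* Matrix (Fin d) (Fin d) C := A.subtype.mapMatrix
  let TA : Matrix (Fin d) (Fin d) A := Matrix.of fun i j => ⟨T i j, hT i j⟩
  have hfT : f TA = T := by
    ext i j
    rfl
  have hf1 : ∀ N : Matrix (Fin d) (Fin d) A, EntLe (f N) 1 := fun N i j => hA1 _ (N i j).2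
  set ν : Matrix (Fin d) (Fin d) A := TA ^ M - 1 with hν
  have hTν : TA ^ M = 1 + ν := by rw [hν]; abel
  have := ofIdeal_prime A hA1
  let g : Matrix (Fin d) (Fin d) A →+* Matrix (Fin d) (Fin d) (A ⧸ ofIdeal A hA1) :=
    (Ideal.Quotient.mk (ofIdeal A hA1)).mapMatrix
  have hg0 : ∀ N : Matrix (Fin d) (Fin d) A, g N = 0 ↔ ∀ i j, ‖(f N) i j‖ < 1 := by
    intro N
    constructor
    · intro h i j
      have h1 : Ideal.Quotient.mk (ofIdeal A hA1) (N i j) = 0 := congrFun (congrFun h i) j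
      rw [Ideal.Quotient.eq_zero_iff_mem] at h1
      exact h1
    · intro h
      ext i j
      change Ideal.Quotient.mk (ofIdeal A hA1) (N i j) = 0
      rw [Ideal.Quotient.eq_zero_iff_mem]
      exact h i j
  have hgp : ((p : ℕ) : Matrix (Fin d) (Fin d) (A ⧸ ofIdeal A hA1)) = 0 := by
    have h1 : g ((p : ℕ) : Matrix (Fin d) (Fin d) A) = 0 := by
      rw [hg0]
      intro i j
      rw [map_natCast, Matrix.natCast_apply]
      split_ifs
      · exact hp1
      · rw [Nat.cast_zero, norm_zero]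
        exact one_pos
    rwa [map_natCast] at h1
  have hnil : IsNilpotent (g ν) := by
    refine ⟨p ^ a, ?_⟩
    obtain ⟨R, hR⟩ := (Commute.one_left ν).exists_add_pow_prime_pow_eq hp a
    rw [← hTν, ← pow_mul, one_pow] at hR
    have h1 : g (TA ^ (M * p ^ a) - 1) = 0 := by
      rw [hg0]
      intro i j
      rw [map_sub, map_pow, hfT, map_one]
      exact hM i j
    rw [hR, map_sub, map_add, map_add, map_mul, map_mul, map_mul, map_natCast, hgp, zero_mul,
      zero_mul, zero_mul, add_zero, map_one, add_sub_cancel_left, map_pow] at h1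
    exact h1
  have hνd : EntLe (f (ν ^ d)) δ := by
    have h1 : g (ν ^ d) = 0 := by
      rw [map_pow]
      exact of_nilp hnil
    rw [hg0] at h1
    intro i j
    rcases hA _ ((ν ^ d) i j).2 with h2 | h2
    · exact absurd (h1 i j) (not_lt.mpr h2.ge)
    · exact h2
  have hνp : EntLe (f (ν ^ p ^ t)) r := by
    have h1 : ν ^ p ^ t = (ν ^ d) ^ h * ν ^ (p ^ t - d * h) := by
      rw [← pow_mul, ← pow_add]
      congr 1
      omega
    rw [h1, map_mul, map_pow]
    have h2 := (hνd.pow hδ0 h).mul (pow_nonneg hδ0 h) zero_le_one (hf1 (ν ^ (p ^ t - d * h)))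
    apply h2.mono
    rw [mul_one]
    exact hδ
  obtain ⟨R, hR⟩ := (Commute.one_left ν).exists_add_pow_prime_pow_eq hp t
  rw [← hTν, ← pow_mul, one_pow] at hR
  have h1 : T ^ (M * p ^ t) - 1 = f (ν ^ p ^ t) + f ((p : ℕ) * (1 * ν * R)) := by
    rw [← hfT, ← map_pow, hR, ← map_one f, ← map_sub, ← map_add]
    congr 1
    rw [← mul_assoc, ← mul_assoc]
    abel
  rw [h1]
  apply hνp.add
  rw [map_mul, map_natCast]
  have h2 : EntLe ((p : ℕ) : Matrix (Fin d) (Fin d) C) r := by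
    intro i j
    rw [Matrix.natCast_apply]
    split_ifs
    · exact hrp
    · rw [Nat.cast_zero, norm_zero]
      exact hr0
  exact (h2.mul hr0 zero_le_one (hf1 _)).mono (by rw [mul_one])

end ring

end Pool.Agent.OF
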